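import Pool.Agent.helper32.Cant.Defs

set_option autoImplicit false

/-! # finite conditional expectations: basic properties -/

namespace Pool.Agent.helper32.Cant

open Finset

section basic

variable {Ω : Type} [Fintype Ω] {α β γ ζ : Type}

theorem ind_nonneg (p : Prop) : 0 ≤ ind p := by
  unfold ind; split_ifs <;> norm_num

theorem ind_le_one (p : Prop) : ind p ≤ 1 := by
  unfold ind; split_ifs <;> norm_num

theorem ind_of {p : Prop} (h : p) : ind p = 1 := by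
  unfold ind; simp [h]

theorem ind_of_not {p : Prop} (h : ¬ p) : ind p = 0 := by
  unfold ind; simp [h]

theorem ind_congr {p q : Prop} (h : p ↔ q) : ind p = ind q := by
  rw [propext h]

theorem pm_nonneg {μ : Ω → ℝ} (hμ : ∀ ω, 0 ≤ μ ω) (X : Ω → α) (ω : Ω) : 0 ≤ pm μ X ω :=
  Finset.sum_nonneg fun y _ => mul_nonneg (hμ y) (ind_nonneg _)

theorem le_pm {μ : Ω → ℝ} (hμ : ∀ ω, 0 ≤ μ ω) (X : Ω → α) (ω : Ω) : μ ω ≤ pm μ X ω := by
  have := Finset.single_le_sum (f := fun y => μ y * ind (X y = X ω))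
    (fun y _ => mul_nonneg (hμ y) (ind_nonneg _)) (Finset.mem_univ ω)
  simpa [pm, ind_of] using this

theorem pm_pos {μ : Ω → ℝ} (hμ : ∀ ω, 0 ≤ μ ω) (X : Ω → α) {ω : Ω} (h : 0 < μ ω) :
    0 < pm μ X ω := lt_of_lt_of_le h (le_pm hμ X ω)

theorem pm_anti {μ : Ω → ℝ} (hμ : ∀ ω, 0 ≤ μ ω) {X : Ω → α} {Y : Ω → β} (h : Ref X Y) (ω : Ω) :
    pm μ Y ω ≤ pm μ X ω := by
  refine Finset.sum_le_sum fun y _ => mul_le_mul_of_nonneg_left ?_ (hμ y)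
  by_cases hy : Y y = Y ω
  · rw [ind_of hy, ind_of (h _ _ hy)]
  · rw [ind_of_not hy]; exact ind_nonneg _

theorem pm_le_one {μ : Ω → ℝ} (hμ : IsProb μ) (X : Ω → α) (ω : Ω) : pm μ X ω ≤ 1 := by
  rw [← hμ.2]
  refine Finset.sum_le_sum fun y _ => ?_
  have := mul_le_mul_of_nonneg_left (ind_le_one (X y = X ω)) (hμ.1 y)
  simpa using this

theorem pm_eq {μ : Ω → ℝ} {X : Ω → α} {ω ω' : Ω} (h : X ω = X ω') : pm μ X ω = pm μ X ω' := by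
  unfold pm; rw [h]

theorem ce_eq {μ : Ω → ℝ} {X : Ω → α} {f : Ω → ℝ} {ω ω' : Ω} (h : X ω = X ω') :
    ce μ X f ω = ce μ X f ω' := by
  unfold ce; rw [pm_eq h, h]

/-- `pm` and `ce` depend only on the partition defined by the observable -/
theorem pm_congr {μ : Ω → ℝ} {X : Ω → α} {Y : Ω → β} (h : ∀ ω ω', X ω = X ω' ↔ Y ω = Y ω') :
    pm μ X = pm μ Y := by
  funext ω
  unfold pm
  refine Finset.sum_congr rfl fun y _ => ?_
  rw [ind_congr (h y ω)]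

theorem ce_congr {μ : Ω → ℝ} {X : Ω → α} {Y : Ω → β} (h : ∀ ω ω', X ω = X ω' ↔ Y ω = Y ω')
    (f : Ω → ℝ) : ce μ X f = ce μ Y f := by
  funext ω
  unfold ce
  rw [pm_congr h]
  congr 1
  refine Finset.sum_congr rfl fun y _ => ?_
  rw [ind_congr (h y ω)]

theorem ex_mono {μ : Ω → ℝ} (hμ : ∀ ω, 0 ≤ μ ω) {f g : Ω → ℝ} (h : ∀ ω, 0 < μ ω → f ω ≤ g ω) :
    ex μ f ≤ ex μ g := by
  refine Finset.sum_le_sum fun y _ => ?_
  rcases (hμ y).eq_or_lt with h0 | h0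
  · rw [← h0]; simp
  · exact mul_le_mul_of_nonneg_left (h y h0) h0.le

theorem ex_congr {μ : Ω → ℝ} (hμ : ∀ ω, 0 ≤ μ ω) {f g : Ω → ℝ} (h : ∀ ω, 0 < μ ω → f ω = g ω) :
    ex μ f = ex μ g :=
  le_antisymm (ex_mono hμ fun ω hω => (h ω hω).le) (ex_mono hμ fun ω hω => (h ω hω).ge)

theorem ex_nonneg {μ : Ω → ℝ} (hμ : ∀ ω, 0 ≤ μ ω) {f : Ω → ℝ} (h : ∀ ω, 0 < μ ω → 0 ≤ f ω) :
    0 ≤ ex μ f := by
  have := ex_mono hμ (f := fun _ => 0) (g := f) h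
  simpa [ex] using this

theorem ex_add (μ : Ω → ℝ) (f g : Ω → ℝ) : ex μ (fun ω => f ω + g ω) = ex μ f + ex μ g := by
  simp [ex, mul_add, Finset.sum_add_distrib]

theorem ex_sub (μ : Ω → ℝ) (f g : Ω → ℝ) : ex μ (fun ω => f ω - g ω) = ex μ f - ex μ g := by
  simp [ex, mul_sub, Finset.sum_sub_distrib]

theorem ex_smul (μ : Ω → ℝ) (a : ℝ) (f : Ω → ℝ) : ex μ (fun ω => a * f ω) = a * ex μ f := by
  simp only [ex, Finset.mul_sum]
  exact Finset.sum_congr rfl fun _ _ => by ring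

theorem ex_sum (μ : Ω → ℝ) {ι : Type} (s : Finset ι) (f : ι → Ω → ℝ) :
    ex μ (fun ω => ∑ i ∈ s, f i ω) = ∑ i ∈ s, ex μ (f i) := by
  simp only [ex, Finset.mul_sum]
  exact Finset.sum_comm

theorem ex_const {μ : Ω → ℝ} (hμ : IsProb μ) (a : ℝ) : ex μ (fun _ => a) = a := by
  simp [ex, ← Finset.sum_mul, hμ.2]

theorem abs_ex_le {μ : Ω → ℝ} (hμ : ∀ ω, 0 ≤ μ ω) (f : Ω → ℝ) :
    |ex μ f| ≤ ex μ (fun ω => |f ω|) := by
  unfold ex
  refine (Finset.abs_sum_le_sum_abs _ _).trans (Finset.sum_le_sum fun y _ => ?_)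
  rw [abs_mul, abs_of_nonneg (hμ y)]

theorem ce_mul_pm {μ : Ω → ℝ} (hμ : ∀ ω, 0 ≤ μ ω) (X : Ω → α) (f : Ω → ℝ) (ω : Ω) :
    ce μ X f ω * pm μ X ω = ∑ y, μ y * ind (X y = X ω) * f y := by
  unfold ce
  rcases (pm_nonneg hμ X ω).eq_or_lt with h0 | h0
  · rw [← h0, mul_zero]
    symm
    refine Finset.sum_eq_zero fun y _ => ?_
    have h1 : ∀ z ∈ Finset.univ, 0 ≤ μ z * ind (X z = X ω) :=
      fun z _ => mul_nonneg (hμ z) (ind_nonneg _)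
    have h2 := (Finset.sum_eq_zero_iff_of_nonneg h1).1 h0.symm y (Finset.mem_univ y)
    rw [h2, zero_mul]
  · rw [div_mul_cancel₀ _ h0.ne']

/-- `ex (g · E[f|X]) = ex (g · f)` for `X`-measurable `g` -/
theorem ex_mul_ce {μ : Ω → ℝ} (hμ : ∀ ω, 0 ≤ μ ω) (X : Ω → α) {g : Ω → ℝ}
    (hg : ∀ ω ω', X ω = X ω' → g ω = g ω') (f : Ω → ℝ) :
    ex μ (fun ω => g ω * ce μ X f ω) = ex μ (fun ω => g ω * f ω) := by
  unfold ex
  have h1 : ∀ ω, μ ω * (g ω * ce μ X f ω)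
      = ∑ y, μ ω * μ y * ind (X y = X ω) * (g y * f y) / pm μ X y := by
    intro ω
    unfold ce
    rw [Finset.sum_div, Finset.mul_sum, Finset.mul_sum]
    refine Finset.sum_congr rfl fun y _ => ?_
    by_cases h : X y = X ω
    · rw [pm_eq h, hg _ _ h]; ring
    · rw [ind_of_not h]; simp
  simp_rw [h1]
  rw [Finset.sum_comm]
  refine Finset.sum_congr rfl fun y _ => ?_
  rcases (hμ y).eq_or_lt with h0 | h0
  · simp [← h0]
  · have h2 : ∀ ω, μ ω * μ y * ind (X y = X ω) * (g y * f y) / pm μ X y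
        = (μ ω * ind (X ω = X y)) * (μ y * (g y * f y) / pm μ X y) := by
      intro ω
      rw [ind_congr (eq_comm (a := X y) (b := X ω))]; ring
    simp_rw [h2]
    rw [← Finset.sum_mul]
    have h3 : ∑ ω, μ ω * ind (X ω = X y) = pm μ X y := rfl
    rw [h3]
    have h4 := (pm_pos hμ X h0).ne'
    field_simp

theorem ex_ce {μ : Ω → ℝ} (hμ : ∀ ω, 0 ≤ μ ω) (X : Ω → α) (f : Ω → ℝ) :
    ex μ (ce μ X f) = ex μ f := by
  have := ex_mul_ce hμ X (g := fun _ => 1) (fun _ _ _ => rfl) f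
  simpa using this

theorem ce_mul {μ : Ω → ℝ} (X : Ω → α) {g : Ω → ℝ}
    (hg : ∀ ω ω', X ω = X ω' → g ω = g ω') (f : Ω → ℝ) (ω : Ω) :
    ce μ X (fun y => g y * f y) ω = g ω * ce μ X f ω := by
  unfold ce
  rw [← mul_div_assoc, Finset.mul_sum]
  congr 1
  refine Finset.sum_congr rfl fun y _ => ?_
  by_cases h : X y = X ω
  · simp only []
    rw [hg _ _ h]; ring
  · rw [ind_of_not h]; simp

theorem ce_ce {μ : Ω → ℝ} (hμ : ∀ ω, 0 ≤ μ ω) {X : Ω → α} {Y : Ω → β} (h : Ref X Y) (f : Ω → ℝ)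
    (ω : Ω) : ce μ X (ce μ Y f) ω = ce μ X f ω := by
  have h1 := ex_mul_ce hμ Y (g := fun y => ind (X y = X ω))
    (fun a b hab => by rw [h _ _ hab]) f
  unfold ex at h1
  unfold ce at h1 ⊢
  congr 1
  have e1 : ∀ F : Ω → ℝ, (∑ y, μ y * ind (X y = X ω) * F y)
      = ∑ y, μ y * (ind (X y = X ω) * F y) := by
    intro F
    exact Finset.sum_congr rfl fun _ _ => by ring
  rw [e1, e1]
  exact h1

theorem ce_mono {μ : Ω → ℝ} (hμ : ∀ ω, 0 ≤ μ ω) (X : Ω → α) {f g : Ω → ℝ} (ω : Ω)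
    (h : ∀ y, 0 < μ y → X y = X ω → f y ≤ g y) : ce μ X f ω ≤ ce μ X g ω := by
  unfold ce
  refine div_le_div_of_nonneg_right (Finset.sum_le_sum fun y _ => ?_) (pm_nonneg hμ X ω)
  by_cases hy : X y = X ω
  · rcases (hμ y).eq_or_lt with h0 | h0
    · rw [← h0]; simp
    · exact mul_le_mul_of_nonneg_left (h y h0 hy) (mul_nonneg h0.le (ind_nonneg _))
  · rw [ind_of_not hy]; simp

theorem ce_congr_fun {μ : Ω → ℝ} (hμ : ∀ ω, 0 ≤ μ ω) (X : Ω → α) {f g : Ω → ℝ} (ω : Ω)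
    (h : ∀ y, 0 < μ y → X y = X ω → f y = g y) : ce μ X f ω = ce μ X g ω :=
  le_antisymm (ce_mono hμ X ω fun y h0 hy => (h y h0 hy).le)
    (ce_mono hμ X ω fun y h0 hy => (h y h0 hy).ge)

theorem ce_nonneg {μ : Ω → ℝ} (hμ : ∀ ω, 0 ≤ μ ω) (X : Ω → α) {f : Ω → ℝ} (ω : Ω)
    (h : ∀ y, 0 < μ y → X y = X ω → 0 ≤ f y) : 0 ≤ ce μ X f ω := by
  have := ce_mono hμ X (f := fun _ => 0) (g := f) ω h
  have h0 : ce μ X (fun _ => 0) ω = 0 := by simp [ce]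
  rwa [h0] at this

theorem ce_add (μ : Ω → ℝ) (X : Ω → α) (f g : Ω → ℝ) (ω : Ω) :
    ce μ X (fun y => f y + g y) ω = ce μ X f ω + ce μ X g ω := by
  simp [ce, mul_add, Finset.sum_add_distrib, add_div]

theorem ce_sub (μ : Ω → ℝ) (X : Ω → α) (f g : Ω → ℝ) (ω : Ω) :
    ce μ X (fun y => f y - g y) ω = ce μ X f ω - ce μ X g ω := by
  simp [ce, mul_sub, Finset.sum_sub_distrib, sub_div]

theorem ce_smul (μ : Ω → ℝ) (X : Ω → α) (a : ℝ) (f : Ω → ℝ) (ω : Ω) :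
    ce μ X (fun y => a * f y) ω = a * ce μ X f ω :=
  ce_mul X (g := fun _ => a) (fun _ _ _ => rfl) f ω

theorem ce_sum (μ : Ω → ℝ) (X : Ω → α) {ι : Type} (s : Finset ι) (f : ι → Ω → ℝ) (ω : Ω) :
    ce μ X (fun y => ∑ i ∈ s, f i y) ω = ∑ i ∈ s, ce μ X (f i) ω := by
  unfold ce
  rw [← Finset.sum_div]
  congr 1
  simp only [Finset.mul_sum]
  exact Finset.sum_comm

theorem ce_const {μ : Ω → ℝ} (hμ : ∀ ω, 0 ≤ μ ω) (X : Ω → α) {ω : Ω} (h : 0 < μ ω) (a : ℝ) :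
    ce μ X (fun _ => a) ω = a := by
  unfold ce
  rw [← Finset.sum_mul]
  have h1 : ∑ y, μ y * ind (X y = X ω) = pm μ X ω := rfl
  rw [h1]
  have := (pm_pos hμ X h).ne'
  field_simp

theorem abs_ce_le {μ : Ω → ℝ} (hμ : ∀ ω, 0 ≤ μ ω) (X : Ω → α) (f : Ω → ℝ) (ω : Ω) :
    |ce μ X f ω| ≤ ce μ X (fun y => |f y|) ω := by
  unfold ce
  rw [abs_div, abs_of_nonneg (pm_nonneg hμ X ω)]
  refine div_le_div_of_nonneg_right ((Finset.abs_sum_le_sum_abs _ _).trans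
    (Finset.sum_le_sum fun y _ => ?_)) (pm_nonneg hμ X ω)
  rw [abs_mul, abs_of_nonneg (mul_nonneg (hμ y) (ind_nonneg _))]

theorem abs_ce_le_of {μ : Ω → ℝ} (hμ : ∀ ω, 0 ≤ μ ω) (X : Ω → α) (f : Ω → ℝ) (ω : Ω) {C : ℝ}
    (hC : 0 ≤ C) (h : ∀ y, 0 < μ y → X y = X ω → |f y| ≤ C) : |ce μ X f ω| ≤ C := by
  refine (abs_ce_le hμ X f ω).trans ((ce_mono hμ X (g := fun _ => C) ω h).trans ?_)
  unfold ce
  rw [← Finset.sum_mul]
  have h1 : ∑ y, μ y * ind (X y = X ω) = pm μ X ω := rfl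
  rw [h1]
  rcases (pm_nonneg hμ X ω).eq_or_lt with h0 | h0
  · rw [← h0]; simpa using hC
  · rw [mul_comm, mul_div_assoc, div_self h0.ne', mul_one]

/-- Cauchy-Schwarz -/
theorem ex_le_sqrt {μ : Ω → ℝ} (hμ : IsProb μ) (f : Ω → ℝ) :
    ex μ f ≤ √(ex μ (fun ω => f ω ^ 2)) := by
  refine Real.le_sqrt_of_sq_le ?_
  have h := Finset.sum_mul_sq_le_sq_mul_sq Finset.univ (fun ω => √(μ ω)) (fun ω => √(μ ω) * f ω)
  have h1 : ∀ ω, √(μ ω) * (√(μ ω) * f ω) = μ ω * f ω := by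
    intro ω
    rw [← mul_assoc, Real.mul_self_sqrt (hμ.1 ω)]
  have h2 : ∀ ω, √(μ ω) ^ 2 = μ ω := fun ω => Real.sq_sqrt (hμ.1 ω)
  simp only [h1, mul_pow, h2] at h
  rw [hμ.2, one_mul] at h
  exact h

theorem ex_sqrt_le {μ : Ω → ℝ} (hμ : IsProb μ) {f : Ω → ℝ} (h : ∀ ω, 0 ≤ f ω) :
    ex μ (fun ω => √(f ω)) ≤ √(ex μ f) := by
  have h1 := ex_le_sqrt hμ (fun ω => √(f ω))
  have h2 : (fun ω => √(f ω) ^ 2) = f := by
    funext ω; exact Real.sq_sqrt (h ω)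
  rwa [h2] at h1

end basic

end Pool.Agent.helper32.Cant
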