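import Mathlib

set_option autoImplicit false

/-!
# Finite probability, and the configurations of MP_3c0a64_an (definitions)

`Ω` is a finite set with weights `μ : Ω → ℝ`; all observables are functions on `Ω`, and all
conditional quantities are functions on `Ω` which are constant on the atoms of the observable.
-/

namespace Pool.Agent.helper32.Cant

open Finset

/-! ### finite probability -/

section prob

variable {Ω : Type} [Fintype Ω] {α β ζ : Type}

open Classical in
/-- the indicator of a proposition -/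
noncomputable def ind (p : Prop) : ℝ := if p then 1 else 0

/-- `μ` is a probability vector -/
def IsProb (μ : Ω → ℝ) : Prop := (∀ ω, 0 ≤ μ ω) ∧ ∑ ω, μ ω = 1

/-- expectation -/
noncomputable def ex (μ : Ω → ℝ) (f : Ω → ℝ) : ℝ := ∑ ω, μ ω * f ω

/-- the weight of the atom `{X = X ω}` of the observable `X` -/
noncomputable def pm (μ : Ω → ℝ) (X : Ω → α) (ω : Ω) : ℝ := ∑ y, μ y * ind (X y = X ω)

/-- conditional expectation of `f` given `X`, at the atom of `ω` -/
noncomputable def ce (μ : Ω → ℝ) (X : Ω → α) (f : Ω → ℝ) (ω : Ω) : ℝ :=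
  (∑ y, μ y * ind (X y = X ω) * f y) / pm μ X ω

/-- `X` is a function of `Y` (so `Y` is the finer observable) -/
def Ref (X : Ω → α) (Y : Ω → β) : Prop := ∀ ω ω', Y ω = Y ω' → X ω = X ω'

/-- conditional entropy of `Z` given `X` (natural logarithms) -/
noncomputable def Hc (μ : Ω → ℝ) (Z : Ω → ζ) (X : Ω → α) : ℝ :=
  ex μ (fun ω => Real.log (pm μ X ω / pm μ (fun y => (X y, Z y)) ω))

open Classical in
/-- the `ℓ¹` distance of the conditional laws of `Z` given `X` and given `Y`, at `ω` -/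
noncomputable def tv (μ : Ω → ℝ) (X : Ω → α) (Y : Ω → β) (Z : Ω → ζ) (ω : Ω) : ℝ :=
  ∑ z ∈ univ.image Z,
    |ce μ Y (fun y => ind (Z y = z)) ω - ce μ X (fun y => ind (Z y = z)) ω|

/-- the probability that two conditionally independent samples of `b`, given `X`, differ by at
least `2` -/
noncomputable def ncf (μ : Ω → ℝ) (X : Ω → α) (b : Ω → ℕ) (ω : Ω) : ℝ :=
  ce μ X (fun y => ce μ X (fun y' => ind (b y + 2 ≤ b y' ∨ b y' + 2 ≤ b y)) ω) ω

/-- the mean of `f` over the set `{W = a, C = c}` -/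
noncomputable def atomMean (μ : Ω → ℝ) (W : Ω → α) (C : Ω → β) (f : Ω → ℝ) (a : α) (c : β) : ℝ :=
  (∑ y, μ y * ind (W y = a ∧ C y = c) * f y) / (∑ y, μ y * ind (W y = a ∧ C y = c))

end prob

/-- Lipschitz test functions on `ZMod M` -/
def Lip {M : ℕ} (Λ : ℝ) (g : ZMod M → ℝ) : Prop :=
  (∀ v, |g v| ≤ 1) ∧ ∀ (v : ZMod M) (h : ℤ), |g (v + (h : ZMod M)) - g v| ≤ Λ * |(h : ℝ)|

/-! ### configurations -/

/-- words of signs -/
abbrev Word (n : ℕ) : Type := Fin n → Bool

/-- the sign of a letter -/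
def sgn (b : Bool) : ℤ := if b then 1 else -1

/-- `3^n` times the point `∑ ± 3^-(i+1)` of the centred Cantor set given by the word `w` -/
def E {n : ℕ} (w : Word n) : ℤ := ∑ i : Fin n, sgn (w i) * 3 ^ (n - 1 - (i : ℕ))

/-- A configuration of level `n`: a set `G` of pairs (centre, word) and a radius for every
centre. The centre `x` stands for `x / 3^n`, the radius `R x` for `R x / 3^n ∈ [1,2)`. -/
structure Cfg (n : ℕ) where
  /-- the pairs (centre, word) -/
  G : Finset (Fin (3 ^ n) × Word n)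
  /-- the radii -/
  R : Fin (3 ^ n) → ℕ
  lo : ∀ x, 3 ^ n ≤ R x
  hi : ∀ x, R x < 2 * 3 ^ n
  ne : G.Nonempty

/-- the sample space: ((centre, word), translation) -/
abbrev Sp (n : ℕ) : Type := (Fin (3 ^ n) × Word n) × ZMod (3 ^ (2 * n))

instance instNeZeroPow (n : ℕ) : NeZero (3 ^ n) := ⟨pow_ne_zero n (by norm_num)⟩

open Classical in
/-- the uniform distribution on `G × ZMod (3^(2n))` -/
noncomputable def mu {n : ℕ} (c : Cfg n) (x : Sp n) : ℝ :=
  if x.1 ∈ c.G then 1 / ((c.G.card : ℝ) * 3 ^ (2 * n)) else 0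

/-- the integer `3^(2n) (x + r e)` -/
def yi {n : ℕ} (c : Cfg n) (x : Fin (3 ^ n) × Word n) : ℤ :=
  3 ^ n * ((x.1 : ℕ) : ℤ) + (c.R x.1 : ℤ) * E x.2

/-- the point `u = 3^(2n) (x + r e) + τ` -/
def uu {n : ℕ} (c : Cfg n) (x : Sp n) : ZMod (3 ^ (2 * n)) := ((yi c x.1 : ℤ) : ZMod (3 ^ (2 * n))) + x.2

/-- the cell of level `k` containing `v` -/
def cell (n k : ℕ) (v : ZMod (3 ^ (2 * n))) : ℕ := v.val / 3 ^ (2 * n - k)

/-- the first `j` digits of the radius (after the leading `1`) -/
def bR {n : ℕ} (c : Cfg n) (j : ℕ) (x : Sp n) : ℕ := c.R x.1.1 / 3 ^ (n - j)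

/-- the observable: translation, word, cell of level `k` of `u`, `j` digits of the radius -/
def obs {n : ℕ} (c : Cfg n) (k j : ℕ) (x : Sp n) : ZMod (3 ^ (2 * n)) × Word n × ℕ × ℕ :=
  (x.2, x.1.2, cell n k (uu c x), bR c j x)

/-- the non-uniformity of level `k + 1` inside the cells of level `k`, given `X` -/
noncomputable def Uf {n : ℕ} (c : Cfg n) {α : Type} (X : Sp n → α) (k : ℕ) (x : Sp n) : ℝ :=
  ∑ t ∈ range (3 ^ k), ∑ a ∈ range 2,
    |ce (mu c) X (fun y => ind (cell n (k + 1) (uu c y) = 3 * t + a)) x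
      - ce (mu c) X (fun y => ind (cell n (k + 1) (uu c y) = 3 * t + a + 1)) x|

/-- the words agree before the place `i` -/
def agree {n : ℕ} (i : ℕ) (w w' : Word n) : Prop := ∀ l : Fin n, (l : ℕ) < i → w' l = w l

/-- the words differ at the place `i` -/
def differ {n : ℕ} (i : ℕ) (w w' : Word n) : Prop := ∀ l : Fin n, (l : ℕ) = i → w' l ≠ w l

/-- the number of words of `G` over the centre of `x` which agree with the word of `x`
before the place `i` -/
noncomputable def cnt {n : ℕ} (c : Cfg n) (i : ℕ) (x : Fin (3 ^ n) × Word n) : ℝ :=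
  ∑ w' : Word n, ind ((x.1, w') ∈ c.G ∧ agree i x.2 w')

/-- the same, counting only the words which differ from the word of `x` at the place `i` -/
noncomputable def cntD {n : ℕ} (c : Cfg n) (i : ℕ) (x : Fin (3 ^ n) × Word n) : ℝ :=
  ∑ w' : Word n, ind ((x.1, w') ∈ c.G ∧ agree i x.2 w' ∧ differ i x.2 w')

/-- the sample space with a resampled word -/
abbrev Sp2 (n : ℕ) : Type := Sp n × Word n

/-- the law of `(x, w')`: `w'` is resampled from the place `i` on -/
noncomputable def mu2 {n : ℕ} (c : Cfg n) (i : ℕ) (z : Sp2 n) : ℝ :=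
  mu c z.1 * (ind ((z.1.1.1, z.2) ∈ c.G ∧ agree i z.1.1.2 z.2) / cnt c i z.1.1)

/-- mean deviation from `1/2` of the probability that the resampled word differs at `i` -/
noncomputable def alpha {n : ℕ} (c : Cfg n) (i : ℕ) : ℝ :=
  ex (mu c) (fun x => |cntD c i x.1 / cnt c i x.1 - 1 / 2|)

/-- information between the cell of level `k + A` and the digits `j .. j + A` of the radius -/
noncomputable def iota {n : ℕ} (c : Cfg n) (A k j : ℕ) : ℝ :=
  Hc (mu c) (fun x => cell n (k + A) (uu c x)) (obs c (k - A) j)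
    - Hc (mu c) (fun x => cell n (k + A) (uu c x)) (obs c (k - A) (j + A))

/-- information between the resampled word and (cell of level `k + A`, digits up to `j + A`) -/
noncomputable def ell {n : ℕ} (c : Cfg n) (A i k j : ℕ) : ℝ :=
  Hc (mu2 c i) (fun z => z.2) (fun z => obs c (k - A) j z.1)
    - Hc (mu2 c i) (fun z => z.2) (fun z => obs c (k + A) (j + A) z.1)

/-- logarithmic density of the cell of level `k` of `u`, given the translation and the word -/
noncomputable def lam {n : ℕ} (c : Cfg n) (k : ℕ) (x : Sp n) : ℝ :=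
  Real.log (3 ^ k * pm (mu c) (fun y : Sp n => (y.2, y.1.2, cell n k (uu c y))) x
    / pm (mu c) (fun y : Sp n => (y.2, y.1.2)) x)

/-- the word is typical -/
def typ {n : ℕ} (c : Cfg n) (x : Sp n) : Prop :=
  1 / ((n : ℝ) * 2 ^ n) ≤ pm (mu c) (fun y : Sp n => y.1.2) x

/-- the density at level `k - A` is large and the word is typical -/
def Lam {n : ℕ} (c : Cfg n) (ε : ℝ) (A k : ℕ) (x : Sp n) : Prop :=
  ε * n ≤ lam c (k - A) x ∧ typ c x

/-- the digit block `l` of the radius is not concentrated -/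
noncomputable def Ib {n : ℕ} (c : Cfg n) (A q k l : ℕ) (x : Sp n) : ℝ :=
  ind (1 / (81 * (3 : ℝ) ^ (4 * q)) ≤ ncf (mu c) (obs c (k - A) (l * q)) (bR c ((l + 1) * q)) x)

end Pool.Agent.helper32.Cant
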