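import Pool.Agent.helper97.Cant.RX
import Pool.Agent.helper43.Cant.RC
import Pool.Agent.helper34.Cant.FS

set_option autoImplicit false

namespace Pool.Agent.helper32.Cant

open Finset

private theorem exists_s {η : ℝ} (hη : 0 < η) : ∃ s : NNReal, 0 < s ∧ s < 1 ∧
    (1 - (s : ℝ)) * Real.log 3 ≤ η / 2 := by
  have hlog : 0 < Real.log 3 := Real.log_pos (by norm_num)
  have hlog2 : Real.log 3 ≤ 2 := by
    have := Real.log_le_sub_one_of_pos (x := 3) (by norm_num)
    linarith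
  -- `s = 1 - min (1/2) (η/4)`
  have h1 : 0 < min (1 / 2 : ℝ) (η / 4) := by positivity
  have h2 : min (1 / 2 : ℝ) (η / 4) ≤ 1 / 2 := min_le_left _ _
  have h3 : min (1 / 2 : ℝ) (η / 4) ≤ η / 4 := min_le_right _ _
  have h4 : ((Real.toNNReal (1 - min (1 / 2 : ℝ) (η / 4)) : NNReal) : ℝ)
      = 1 - min (1 / 2 : ℝ) (η / 4) := Real.coe_toNNReal _ (by linarith)
  refine ⟨Real.toNNReal (1 - min (1 / 2 : ℝ) (η / 4)), ?_, ?_, ?_⟩
  · rw [← NNReal.coe_pos, h4]; linarith
  · rw [← NNReal.coe_lt_coe, h4, NNReal.coe_one]; linarith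
  · rw [h4]
    nlinarith

private theorem eventually_small (a C : ℝ) (ha : 0 < a) :
    ∃ N : ℕ, ∀ n ≥ N, C * ((n : ℝ) + 1) ^ 4 < Real.exp (a * n) := by
  have h := (isLittleO_pow_exp_pos_mul_atTop (k := 4) ha)
  have h2 : Filter.Tendsto (fun n : ℕ => ((n : ℝ) + 1) ^ 4 / Real.exp (a * ((n : ℝ) + 1)))
      Filter.atTop (nhds 0) := by
    have h3 := h.tendsto_div_nhds_zero
    have h4 : Filter.Tendsto (fun n : ℕ => (n : ℝ) + 1) Filter.atTop Filter.atTop :=
      Filter.tendsto_atTop_add_const_right _ _ tendsto_natCast_atTop_atTop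
    exact h3.comp h4
  have h5 : 0 < 1 / ((|C| + 1) * Real.exp a) := by positivity
  obtain ⟨N, hN⟩ := (Filter.eventually_atTop.1 (h2.eventually (gt_mem_nhds h5)))
  refine ⟨N, fun n hn => ?_⟩
  have h6 := hN n hn
  rw [div_lt_div_iff₀ (Real.exp_pos _) (by positivity)] at h6
  have h7 : Real.exp (a * ((n : ℝ) + 1)) = Real.exp (a * n) * Real.exp a := by
    rw [← Real.exp_add]; ring_nf
  rw [h7] at h6
  have h8 : ((n : ℝ) + 1) ^ 4 * (|C| + 1) < Real.exp (a * n) := by
    have := Real.exp_pos a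
    have h9 : (((n : ℝ) + 1) ^ 4 * (|C| + 1)) * Real.exp a < Real.exp (a * n) * Real.exp a := by
      nlinarith
    exact lt_of_mul_lt_mul_right h9 this.le
  refine lt_of_le_of_lt ?_ h8
  rw [mul_comm]
  refine mul_le_mul_of_nonneg_left ?_ (by positivity)
  linarith [le_abs_self C]

/-- module FIN -/
theorem dim_one (S B : Set ℝ) (hS : dimH S = 1)
    (h : ∀ x ∈ S, ∃ r > 0, ∀ c ∈ cantorSet, x + r * (c - 1 / 2) ∈ B) : dimH B = 1 := by
  classical
  refine le_antisymm ?_ ?_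
  · have := dimH_mono (Set.subset_univ B)
    rwa [Real.dimH_univ] at this
  by_contra hlt
  rw [not_le] at hlt
  obtain ⟨t, ht1, ht2⟩ := ENNReal.lt_iff_exists_nnreal_btwn.1 hlt
  have ht2' : t < 1 := by exact_mod_cast ht2
  have ht2r : (t : ℝ) < 1 := by exact_mod_cast ht2'
  have ht0 : 0 < t := by
    have : (0 : ENNReal) < t := lt_of_le_of_lt bot_le ht1
    exact_mod_cast this
  have hlog : 0 < Real.log 3 := Real.log_pos (by norm_num)
  set δ : ℝ := (1 - (t : ℝ)) * Real.log 3 / 2 with hδ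
  have hδ0 : 0 < δ := by
    have : 0 < 1 - (t : ℝ) := by linarith
    positivity
  obtain ⟨η, hη, N, hN⟩ := finite_scale hδ0
  obtain ⟨s, hs0, hs1, hs2⟩ := exists_s hη
  -- choose the radii
  have h' : ∀ x, ∃ r : ℝ, x ∈ S → (0 < r ∧ ∀ c ∈ cantorSet, x + r * (c - 1 / 2) ∈ B) := by
    intro x
    by_cases hx : x ∈ S
    · obtain ⟨r, hr, hr'⟩ := h x hx
      exact ⟨r, fun _ => ⟨hr, hr'⟩⟩
    · exact ⟨0, fun hx' => absurd hx' hx⟩
  choose r hr using h'
  obtain ⟨l, m, hlm⟩ := good_piece S hS r (fun x hx => (hr x hx).1) s hs1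
  set S' : Set ℝ := {x ∈ S | (2 : ℝ) ^ l ≤ r x ∧ r x < 2 ^ (l + 1) ∧
      m * 2 ^ l ≤ x ∧ x < (m + 1) * 2 ^ l} with hS'
  have hlam : (0 : ℝ) < 2 ^ l := by positivity
  have hm : MeasureTheory.Measure.hausdorffMeasure (s : ℝ) S' ≠ 0 := by
    rw [hausdorffMeasure_of_lt_dimH hlm]
    exact ENNReal.top_ne_zero
  obtain ⟨C, hC⟩ := config_of_piece S' r (m * 2 ^ l) (2 ^ l) hlam
    (fun x hx => ⟨hx.2.1, by
      have := hx.2.2.1
      rwa [zpow_add₀ (by norm_num), zpow_one, mul_comm] at this⟩)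
    (fun x hx => ⟨hx.2.2.2.1, by
      have := hx.2.2.2.2
      linarith⟩) B (fun x hx c hc => (hr x hx.1).2 c hc) s (by exact_mod_cast hs0) hm t ht0 ht1
  obtain ⟨N1, hN1⟩ := eventually_small (η / 2) 4 (by linarith)
  obtain ⟨N2, hN2⟩ := eventually_small δ |C| hδ0
  obtain ⟨n, hn, c, hc1, hc2⟩ := hC (max N (max N1 N2))
  have hnN : N ≤ n := (le_max_left _ _).trans hn
  have hnN1 : N1 ≤ n := (le_max_left _ _).trans ((le_max_right _ _).trans hn)
  have hnN2 : N2 ≤ n := (le_max_right _ _).trans ((le_max_right _ _).trans hn)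
  have e3 : ∀ x : ℝ, (3 : ℝ) ^ x = Real.exp (x * Real.log 3) := by
    intro x; rw [Real.rpow_def_of_pos (by norm_num), mul_comm]
  have e3n : (3 : ℝ) ^ n = Real.exp (n * Real.log 3) := by
    rw [← e3, Real.rpow_natCast]
  have hn0 : (0 : ℝ) ≤ n := Nat.cast_nonneg n
  -- the configuration is large
  have hbig : 6 ^ n * Real.exp (-(η * n)) ≤ (c.G.card : ℝ) := by
    refine le_trans ?_ hc1
    rw [le_div_iff₀ (by positivity)]
    have h6 : (6 : ℝ) ^ n = 3 ^ n * 2 ^ n := by rw [← mul_pow]; norm_num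
    rw [h6, e3n, e3]
    have h7 := (hN1 n hnN1).le
    have h8 : Real.exp (n * Real.log 3) * Real.exp (-(η * n)) * Real.exp (η / 2 * n)
        ≤ Real.exp (s * n * Real.log 3) := by
      rw [← Real.exp_add, ← Real.exp_add]
      refine Real.exp_le_exp.2 ?_
      nlinarith [mul_le_mul_of_nonneg_right hs2 hn0]
    calc Real.exp (n * Real.log 3) * 2 ^ n * Real.exp (-(η * n)) * (4 * ((n : ℝ) + 1) ^ 4)
        ≤ Real.exp (n * Real.log 3) * 2 ^ n * Real.exp (-(η * n)) * Real.exp (η / 2 * n) :=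
          mul_le_mul_of_nonneg_left h7 (by positivity)
      _ = (Real.exp (n * Real.log 3) * Real.exp (-(η * n)) * Real.exp (η / 2 * n)) * 2 ^ n := by
          ring
      _ ≤ Real.exp (s * n * Real.log 3) * 2 ^ n :=
          mul_le_mul_of_nonneg_right h8 (by positivity)
  have hfin := hN n hnN c hbig
  -- the number of cells is small
  have hsmall : (Ycard c : ℝ) < 3 ^ n * Real.exp (-(δ * n)) := by
    refine lt_of_le_of_lt hc2 ?_
    rw [e3, e3n, ← Real.exp_add]
    have h7 := hN2 n hnN2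
    have h8 : C < Real.exp (δ * n) := by
      refine lt_of_le_of_lt ?_ h7
      have h9 : (1 : ℝ) ≤ ((n : ℝ) + 1) ^ 4 := one_le_pow₀ (by linarith)
      have h10 := abs_nonneg C
      have h11 := le_abs_self C
      nlinarith
    have h9 : Real.exp (n * Real.log 3 + -(δ * n))
        = Real.exp (δ * n) * Real.exp (t * n * Real.log 3) := by
      rw [← Real.exp_add]
      congr 1
      rw [hδ]
      ring
    rw [h9]
    exact mul_lt_mul_of_pos_right h8 (Real.exp_pos _)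
  exact absurd hfin (not_le.2 hsmall)

end Pool.Agent.helper32.Cant
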